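import Pool.Agent.L7h15.SQ.Stm
import Pool.Agent.L7h53.RL.Tw

/-!
# Project SQ: the functional equation of the sum of the values at the cusps
-/

set_option autoImplicit false

namespace Pool.Agent.L7h53.SQ

open Finset Filter Topology Set MeasureTheory
open Pool.Agent.K4H55.BI
open Pool.Agent.L7h82.RL
open Pool.Agent.L7h15.SQ (S_FE)
open scoped ComplexConjugate

theorem s_FE : S_FE := by
  intro O _ _ D n c C w m χ h hm hχ hn hneg
  have hιm : D.ι m ≠ 0 := fun h => hm (D.inj (by rw [h, map_zero]))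
  have hιn : D.ι n ≠ 0 := fun h' => h.n0 (D.inj (by rw [h', map_zero]))
  set NM : ℝ := ‖D.ι n‖ * ‖D.ι m‖ ^ 2 with hNM
  have hNM0 : 0 < NM := by positivity
  have h1 : Tendsto (fun t : ℝ => ∑ x ∈ rs D m, conj (χ x) * Phi D c (D.ι x / D.ι m) t) atTop (𝓝 0) := by
    have h2 : Tendsto (fun t : ℝ => ∑ x ∈ rs D m, conj (χ x) * Phi D c (D.ι x / D.ι m) t) atTop
        (𝓝 (∑ x ∈ rs D m, conj (χ x) * 0)) :=
      tendsto_finsetSum _ fun x _ => (Phi_tendsto h.cff _).const_mul _
    simpa using h2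
  have h2 : Tendsto (fun t : ℝ => 1 / (NM * t)) atTop (𝓝[>] 0) := by
    refine tendsto_nhdsWithin_iff.2 ⟨?_, ?_⟩
    · have h3 : Tendsto (fun t : ℝ => NM⁻¹ * t⁻¹) atTop (𝓝 (NM⁻¹ * 0)) :=
        tendsto_inv_atTop_zero.const_mul _
      rw [mul_zero] at h3
      refine h3.congr fun t => ?_
      rw [one_div, mul_inv NM t]
    · filter_upwards [eventually_gt_atTop (0 : ℝ)] with t ht
      have : 0 < 1 / (NM * t) := by positivity
      exact this
  have h3 : Tendsto (fun t : ℝ => ∑ x ∈ rs D m, χ x * Phi D c (D.ι x / D.ι m) (1 / (NM * t))) atTop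
      (𝓝 (∑ x ∈ rs D m, χ x * fv D c (D.ι x / D.ι m))) := by
    refine tendsto_finsetSum _ fun x _ => ?_
    by_cases h0 : χ x = 0
    · simp only [h0, zero_mul]
      exact tendsto_const_nhds
    · have h4 : IsCoprime m x := by
        by_contra hc
        exact h0 (hχ.zero x (fun h => hc h.symm))
      obtain ⟨a, b, hab⟩ := hn.mul_right h4
      have h5 := (h.lim (x := x) (r := b) (s := a) hm (by linear_combination hab)).1
      exact (h5.comp h2).const_mul _
  have h4 : Tendsto (fun t : ℝ => ∑ x ∈ rs D m, conj (χ x) * Phi D c (D.ι x / D.ι m) t) atTop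
      (𝓝 (∑ x ∈ rs D m, conj (χ x) * fv D c (D.ι x / D.ι m) -
        w * (χ n * ∑ x ∈ rs D m, χ x * fv D c (D.ι x / D.ι m)))) := by
    refine Tendsto.congr' ?_ (((h3.const_mul (χ n)).const_mul w).const_sub
      (∑ x ∈ rs D m, conj (χ x) * fv D c (D.ι x / D.ι m)))
    filter_upwards [eventually_gt_atTop (0 : ℝ)] with t ht
    exact (Pool.Agent.L7h53.RL.twist_fe h hm hχ hn hneg ht).symm
  have h5 := tendsto_nhds_unique h1 h4
  exact sub_eq_zero.1 h5.symm

end Pool.Agent.L7h53.SQ
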