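import Pool.Agent.L7h62.SQ.Stm2

/-!
# Project SQ, stage 2, part IND: induction over a 2-group
-/

set_option autoImplicit false

namespace Pool.Agent.L7h53.SQ

open Module NumberField IsDedekindDomain
open Pool.Agent.TeamU (Over Unr)
open Pool.Agent.L7h62.SQ

/-- an intermediate field `E` with `[F : E] = 2`, Galois over `K` -/
theorem exists_mid {K F : Type} [Field K] [Field F] [Algebra K F] [FiniteDimensional K F]
    [IsGalois K F] {k : ℕ} (h : finrank K F = 2 ^ (k + 1)) :
    ∃ E : IntermediateField K F, IsGalois K E ∧ finrank K E = 2 ^ k ∧ finrank E F = 2 := by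
  classical
  have hcard : Nat.card (F ≃ₐ[K] F) = 2 ^ (k + 1) := by rw [IsGalois.card_aut_eq_finrank, h]
  have hp : IsPGroup 2 (F ≃ₐ[K] F) := IsPGroup.of_card hcard
  have : Nontrivial (F ≃ₐ[K] F) := by
    rw [← Finite.one_lt_card_iff_nontrivial, hcard]
    exact Nat.one_lt_two_pow (by omega)
  have := hp.center_nontrivial
  have h2 : 2 ∣ Nat.card (Subgroup.center (F ≃ₐ[K] F)) := by
    obtain ⟨n, hn⟩ := IsPGroup.iff_card.1 (hp.to_subgroup (Subgroup.center _))
    have h1 : 1 < Nat.card (Subgroup.center (F ≃ₐ[K] F)) := Finite.one_lt_card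
    rw [hn]
    cases n with
    | zero => rw [hn] at h1; simp at h1
    | succ n => exact dvd_pow_self 2 (by omega)
  have : Fact (Nat.Prime 2) := ⟨Nat.prime_two⟩
  obtain ⟨τ, hτ⟩ := exists_prime_orderOf_dvd_card' 2 h2
  set N : Subgroup (F ≃ₐ[K] F) := Subgroup.zpowers (τ : F ≃ₐ[K] F) with hN
  have hNc : N ≤ Subgroup.center (F ≃ₐ[K] F) := by
    rw [hN, Subgroup.zpowers_le]; exact τ.2
  have : N.Normal := ⟨fun n hn g => by
    have := (Subgroup.mem_center_iff.1 (hNc hn)) g
    rw [this, mul_inv_cancel_right]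
    exact hn⟩
  have hNcard : Nat.card N = 2 := by
    rw [hN, Nat.card_zpowers, ← hτ]
    exact Subgroup.orderOf_coe τ
  have hE : finrank (IntermediateField.fixedField N) F = 2 := by
    rw [IntermediateField.finrank_fixedField_eq_card, hNcard]
  refine ⟨IntermediateField.fixedField N, inferInstance, ?_, hE⟩
  have h3 := Module.finrank_mul_finrank K (IntermediateField.fixedField N) F
  rw [hE, h, pow_succ] at h3
  omega

theorem exists_over {M E : Type} [Field M] [NumberField M] [Field E] [NumberField E] [Algebra M E]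
    (v : HeightOneSpectrum (𝓞 M)) : ∃ P : HeightOneSpectrum (𝓞 E), Over P v := by
  have : Module.IsTorsionFree (𝓞 M) (𝓞 E) := inferInstance
  obtain ⟨⟨P, hP, hPv⟩⟩ := v.asIdeal.nonempty_primesOver (S := 𝓞 E)
  refine ⟨⟨P, hP, ?_⟩, hPv.over.symm⟩
  rintro rfl
  apply v.ne_bot
  rw [hPv.over]
  exact Ideal.under_bot _ _

theorem exists_under {M E : Type} [Field M] [NumberField M] [Field E] [NumberField E]
    [Algebra M E] (P : HeightOneSpectrum (𝓞 E)) :
    ∃ v : HeightOneSpectrum (𝓞 M), Over P v := by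
  refine ⟨⟨P.asIdeal.comap (algebraMap (𝓞 M) (𝓞 E)), inferInstance, ?_⟩, rfl⟩
  intro h
  apply P.ne_bot
  exact Ideal.eq_bot_of_comap_eq_bot h

theorem s_IND (hV : S_VAL) (hT : S_TOW) (hP : S_POS) (hS : S_STEP) : S_IND := by
  intro k
  induction k with
  | zero =>
    intro K F _ _ _ _ _ _ h hF hK p hram
    have hsurj : ∀ x : F, ∃ a : K, algebraMap K F a = x := by
      rw [pow_zero] at h
      have h1 := Subalgebra.bot_eq_top_iff_finrank_eq_one.2 h
      intro x
      have h2 : x ∈ (⊥ : Subalgebra K F) := by rw [h1]; exact Algebra.mem_top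
      exact Algebra.mem_bot.1 h2
    have hunr : ∀ P : HeightOneSpectrum (𝓞 F), Unr K P := by
      intro P
      obtain ⟨π, hπ⟩ := P.valuation_exists_uniformizer F
      obtain ⟨a, ha⟩ := hsurj π
      exact ((hV K F).2 P).2 ⟨a, by rw [ha]; exact hπ⟩
    refine ⟨?_, ?_⟩
    · intro x hx hpos hev
      obtain ⟨a, rfl⟩ := hsurj x
      have ha : a ≠ 0 := by
        rintro rfl
        exact hx (map_zero _)
      obtain ⟨y, hy⟩ := hK a ha (fun φ => by
        obtain ⟨ψ, hψ⟩ := (hP K F hF).2 φ
        rw [← hψ]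
        exact hpos ψ) (fun v => by
        obtain ⟨P, hPv⟩ := exists_over (E := F) v
        obtain ⟨n, hn⟩ := hev P
        exact ⟨n, by rw [← hn, hunr P v hPv a]⟩)
      exact ⟨algebraMap K F y, by rw [← map_pow, hy]⟩
    · intro P Q hPp hQp
      have h1 : ∀ x : F, P.valuation F x = Q.valuation F x := by
        intro x
        obtain ⟨a, rfl⟩ := hsurj x
        rw [hunr P p hPp a, hunr Q p hQp a]
      apply HeightOneSpectrum.ext
      ext y
      rw [← P.valuation_lt_one_iff_mem (K := F), ← Q.valuation_lt_one_iff_mem (K := F), h1]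
  | succ k ih =>
    intro K F _ _ _ _ _ _ h hF hK p hram
    obtain ⟨E, hE1, hE2, hE3⟩ := exists_mid h
    have hEr : TReal E := (hP E F hF).1
    have hramE : ∀ P : HeightOneSpectrum (𝓞 E), Over P p ∨ Unr K P := by
      intro v
      obtain ⟨P, hPv⟩ := exists_over (M := E) (E := F) v
      obtain ⟨t1, t2, t3⟩ := hT K E F P v hPv
      rcases hram P with h1 | h1
      · exact Or.inl ((t1 p).1 h1)
      · exact Or.inr (t3 h1)
    obtain ⟨hSelE, huE⟩ := ih K E hE2 hEr hK p hramE
    obtain ⟨v₀, hv₀⟩ := exists_over (M := K) (E := E) p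
    have hov : ∀ P : HeightOneSpectrum (𝓞 F), Over P p → Over P v₀ := by
      intro P hPp
      obtain ⟨v, hv⟩ := exists_under (M := E) P
      have h1 := ((hT K E F P v hv).1 p).1 hPp
      rw [← huE v v₀ h1 hv₀]
      exact hv
    obtain ⟨s1, s2⟩ := hS E F hE3 hF hSelE v₀ (by
      intro P
      rcases hram P with h1 | h1
      · exact Or.inl (hov P h1)
      · right
        obtain ⟨v, hv⟩ := exists_under (M := E) P
        exact (hT K E F P v hv).2.1 h1)
    exact ⟨s1, fun P Q hPp hQp => s2 P Q (hov P hPp) (hov Q hQp)⟩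

end Pool.Agent.L7h53.SQ
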